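import Mathlib
import Pool.Agent.Lib.MP_f60e8a_al.P.FinalP

/-!
# Quasi-isometry invariance of the residual finiteness growth of nilpotent groups

For quasi-isometric finitely generated nilpotent groups `G` and `H` of Carnot type (that is, whose
Malcev completions are Carnot groups) the residual finiteness growth functions are equivalent.
The proof contains a proof of Pansu's theorem that the graded real Lie algebras of quasi-isometric
finitely generated nilpotent groups are isomorphic.
-/

open scoped commutatorElement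

namespace Pool.Agent.Results.MP_f60e8a_al.CarnotQI

open Pool.Agent.MPf60e8a (RF wordLen)

/-- `f ≼ h`: there is `C > 0` with `f n ≤ C * h (C * n)` for all `n`. -/
def GrowthLE (f h : ℕ → ℕ) : Prop := ∃ C : ℕ, 0 < C ∧ ∀ n, f n ≤ C * h (C * n)

/-- `f ≈ h`. -/
def GrowthEquiv (f h : ℕ → ℕ) : Prop := GrowthLE f h ∧ GrowthLE h f

/-- `G` and `H` with the word metrics of `S` and `T` are quasi-isometric. -/
def QuasiIsometric {G H : Type*} [Group G] [Group H] (S : Finset G) (T : Finset H) : Prop :=
  ∃ (f : G → H) (K : ℕ),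
    (∀ x y, wordLen T ((f x)⁻¹ * f y) ≤ K * wordLen S (x⁻¹ * y) + K) ∧
    (∀ x y, wordLen S (x⁻¹ * y) ≤ K * wordLen T ((f x)⁻¹ * f y) + K) ∧
    ∀ z, ∃ x, wordLen T ((f x)⁻¹ * z) ≤ K

/-- A group `G` is of Carnot type if some subgroup of finite index has an endomorphism which
induces multiplication by some `n ≥ 2` on its abelianization modulo torsion. -/
def CarnotType (G : Type*) [Group G] : Prop :=
  ∃ (G' : Subgroup G) (n : ℕ) (ψ : G' →* G'), G'.FiniteIndex ∧ 2 ≤ n ∧
    ∀ x : G', ∃ k : ℕ, 0 < k ∧ (ψ x * (x ^ n)⁻¹) ^ k ∈ commutator G'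

/-- Let `G` and `H` be nontrivial finitely generated nilpotent groups of Carnot type. If they are
quasi-isometric, then their residual finiteness growth functions are equivalent. -/
theorem result {G H : Type*} [Group G] [Group H] [Nontrivial G] [Nontrivial H]
    [Group.IsNilpotent G] [Group.IsNilpotent H] (S : Finset G) (T : Finset H)
    (hS : Subgroup.closure (S : Set G) = ⊤) (hT : Subgroup.closure (T : Set H) = ⊤)
    (hG : CarnotType G) (hH : CarnotType H) (hqi : QuasiIsometric S T) :
    GrowthEquiv (RF S) (RF T) := by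
  obtain ⟨f, K, h1, h2, h3⟩ := hqi
  exact Pool.Agent.MPf60e8aP.FinalP.main hS hT f K ⟨h1, h2⟩ h3 (Or.inl ⟨hG, hH⟩)

end Pool.Agent.Results.MP_f60e8a_al.CarnotQI
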