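import Mathlib
import Pool.Agent.Lib.MP_f60e8a_al.N.FinalN

/-!
# The residual finiteness growth of all finitely generated nilpotent groups

For an infinite finitely generated nilpotent group `G` the residual finiteness growth is
`(log n) ^ m`, where `m` is read off from the complex Lie algebra spanned by the logarithms of
a unipotent rational representation of `G` with finite kernel (this is the complexified Malcev
Lie algebra of `G`): it is the least `d` such that the ideals of codimension at most `d`
intersect in `0`.
-/

namespace Pool.Agent.Results.MP_f60e8a_al.Nilpotent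

open Pool.Agent.MPf60e8a (RF)
open Pool.Agent.MPf60e8aN (IsUnipotent malcevNumber)

/-- `f ≼ h`: there is `C > 0` with `f n ≤ C * h (C * n)` for all `n`. -/
def GrowthLE (f h : ℕ → ℕ) : Prop := ∃ C : ℕ, 0 < C ∧ ∀ n, f n ≤ C * h (C * n)

/-- `f ≈ h`. -/
def GrowthEquiv (f h : ℕ → ℕ) : Prop := GrowthLE f h ∧ GrowthLE h f

/-- Every infinite finitely generated nilpotent group has a unipotent rational representation
with finite kernel, and for each such representation `φ` the residual finiteness growth of `G`
is equivalent to the function `(log n) ^ (malcevNumber φ)`. -/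
theorem result {G : Type*} [Group G] [Infinite G] [Group.IsNilpotent G] (S : Finset G)
    (hS : Subgroup.closure (S : Set G) = ⊤) :
    (∃ (N : ℕ) (φ : G →* (Matrix (Fin N) (Fin N) ℚ)ˣ), IsUnipotent φ ∧ Finite φ.ker) ∧
    ∀ (N : ℕ) (φ : G →* (Matrix (Fin N) (Fin N) ℚ)ˣ), IsUnipotent φ → Finite φ.ker →
      GrowthEquiv (RF S) (fun n => (Nat.log 2 n) ^ malcevNumber φ) := by
  have hFG : Group.FG G := ⟨⟨S, hS⟩⟩
  refine ⟨Pool.Agent.MPf60e8aN.FinalN.hasRep G, fun N φ hφ hker => ?_⟩
  exact Pool.Agent.MPf60e8aN.FinalN.main hS φ hφ hker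

end Pool.Agent.Results.MP_f60e8a_al.Nilpotent
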